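import Pool.Agent.N739.OW.PsiFin

/-!
# One-sided mean values of the primes in short intervals, in every window

`ψ(x;H)` is the weighted number of the prime powers in the interval of length `H` centred at `x`. For `1/2 < σ < 1` let
`Z(σ) = ∑ m(ρ) / Im ρ` over the distinct zeros `ρ` of `ζ` with `Re ρ ≥ σ` and `Im ρ > 0`, `m(ρ)` the multiplicity (a
convergent sum, `0` if there are no such zeros). Let `s = 1` or `s = -1`. We prove unconditionally:

1. If `log A > 2π Z(σ)` then for every zero `ρ` with `Re ρ > σ` and every `ε > 0`, for ALL large `X` and ALL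
   `1 ≤ H ≤ X^(1-ε)`: `∫_X^{AX} max(s (ψ(x;H) - H), 0) dx ≥ H X^(Re ρ - ε)`. Too many and too few primes, in the mean by
   `H X^(Re ρ - 1 - ε)`, in every window `[X, AX]`, for intervals of every length.
2. So for every zero `ρ` with `Re ρ > 1/2` the variance `(1/X) ∫_1^X (ψ(x;H) - H)² dx` is at least
   `H² X^(2 Re ρ - 2 - ε)` for ALL large `X` and all `1 ≤ H ≤ X^(1-ε)`: the asymptotic formula for the variance fails for
   all large `X` if `X^(2 - 2 Re ρ + 2ε) ≤ H ≤ X^(1-ε)`.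
3. `ζ` has a zero-free half-plane `Re z > σ₀`, `σ₀ < 1`, if and only if for one `A > 1`, `δ > 0`, `0 < ε < 1` there are
   arbitrarily large `X` and `1 ≤ H ≤ X^(1-ε)` with `∫_X^{AX} max(s (ψ(x;H) - H), 0) dx ≤ H X^(1-δ)`.
4. The Riemann hypothesis holds if and only if for all `A > 1`, `0 < ε < 1` there are arbitrarily large `X` and
   `X^(1-ε) ≤ H ≤ X^(1-ε/2)` with `∫_X^{AX} max(s (ψ(x;H) - H), 0)² dx ≤ H X^(1+2ε)`: the one-sided variance on one
   arbitrarily sparse sequence of windows of bounded ratio.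

Proof of 1. Let `E(x) = ψ(x) - x` and `E₁` its moving average of length `H`; the derivative of `H E₁` is the error
for the interval `(x, x + H]`. A nondecreasing smooth cutoff `W` of ratio `A₁ < A^(1/2)` with
`∑ (Λ(n) - 1) W(x/n) ≪ x^θ`, `θ < Re ρ` (starting file `MonotoneCutoffs`), gives means of `E`, and of `E₁`, over
`[x/A₁, x]` with nonnegative weights which are small. If the one-sided integral is small, `E₁` is nearly monotone on
`[X, AX]`; being small in the mean over `[y/A₁, y]` and over `[y, A₁y]` it is small at every `y` of the middle part of the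
window, and so also the other one-sided integral is small there; this contradicts the two-sided lower bound, which the
starting library proves for every window (`Pool.Agent.R303.SW.psi_short`).
-/

set_option autoImplicit false

open MeasureTheory Filter Topology Set

namespace Pool.Agent.Results.MP_2a816b_nt.OneSidedEveryWindow

/-- `ψ(x;H)`: the sum of `Λ(n)` over the positive integers `n` with `x - H/2 ≤ n ≤ x + H/2` (`Λ(0) = 0`). -/
noncomputable def psi (x H : ℝ) : ℝ :=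
  ∑ n ∈ Finset.Icc ⌈x - H / 2⌉₊ ⌊x + H / 2⌋₊, ArithmeticFunction.vonMangoldt n

/-- The (distinct) zeros of `ζ` with `Re ρ ≥ σ` and `Im ρ > 0`. -/
def Zeros (σ : ℝ) : Type := {ρ : ℂ // riemannZeta ρ = 0 ∧ σ ≤ ρ.re ∧ 0 < ρ.im}

/-- The summands `m(ρ) / Im ρ`, `m(ρ)` the order of the zero. -/
noncomputable def term (σ : ℝ) (ρ : Zeros σ) : ℝ :=
  (analyticOrderNatAt riemannZeta ρ.val : ℝ) / ρ.val.im

/-- `Z(σ)`, the sum of `m(ρ) / Im ρ` over the zeros `ρ` of `ζ` with `Re ρ ≥ σ` and `Im ρ > 0`. -/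
noncomputable def zeroSum (σ : ℝ) : ℝ := ∑' ρ : Zeros σ, term σ ρ

/-- `∫_X^{AX} max(s (ψ(x;H) - H), 0) dx`. -/
noncomputable def part (s A X H : ℝ) : ℝ := ∫ x in X..(A * X), max (s * (psi x H - H)) 0

/-- `∫_X^{AX} max(s (ψ(x;H) - H), 0)² dx`. -/
noncomputable def partSq (s A X H : ℝ) : ℝ := ∫ x in X..(A * X), (max (s * (psi x H - H)) 0) ^ 2

/-- The variance `(1/X) ∫_1^X |ψ(x;H) - H|² dx`. -/
noncomputable def variance (X H : ℝ) : ℝ := 1 / X * ∫ x in (1 : ℝ)..X, (psi x H - H) ^ 2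

/-- **Main theorem.** -/
theorem result (s : ℝ) (hs : s = 1 ∨ s = -1) :
    (∀ σ : ℝ, 1 / 2 < σ → σ < 1 → Summable (term σ) ∧
      ∀ A : ℝ, 1 < A → 2 * (Real.pi * zeroSum σ) < Real.log A →
        ∀ ρ : ℂ, riemannZeta ρ = 0 → σ < ρ.re → ∀ ε : ℝ, 0 < ε →
          ∀ᶠ X : ℝ in atTop, ∀ H : ℝ, 1 ≤ H → H ≤ X ^ (1 - ε) → H * X ^ (ρ.re - ε) ≤ part s A X H) ∧
    (∀ ρ : ℂ, riemannZeta ρ = 0 → 1 / 2 < ρ.re → ∀ ε : ℝ, 0 < ε →
      ∀ᶠ X : ℝ in atTop, ∀ H : ℝ, 1 ≤ H → H ≤ X ^ (1 - ε) →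
        H ^ 2 * X ^ (2 * ρ.re - 2 - ε) ≤ variance X H) ∧
    ((∃ σ₀ : ℝ, σ₀ < 1 ∧ ∀ z : ℂ, σ₀ < z.re → riemannZeta z ≠ 0) ↔
      ∃ A δ ε : ℝ, 1 < A ∧ 0 < δ ∧ 0 < ε ∧ ε < 1 ∧
        ∃ᶠ X : ℝ in atTop, ∃ H : ℝ, 1 ≤ H ∧ H ≤ X ^ (1 - ε) ∧ part s A X H ≤ H * X ^ (1 - δ)) ∧
    (RiemannHypothesis ↔
      ∀ A ε : ℝ, 1 < A → 0 < ε → ε < 1 →
        ∃ᶠ X : ℝ in atTop, ∃ H : ℝ, X ^ (1 - ε) ≤ H ∧ H ≤ X ^ (1 - ε / 2) ∧
          partSq s A X H ≤ H * X ^ (1 + 2 * ε)) := by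
  refine ⟨fun σ h1 h2 => ⟨Pool.Agent.N739.OW.hsum_summable h1 h2, fun A hA0 hA ρ hz hρ ε hε => ?_⟩,
    fun ρ hz hρ ε hε => Pool.Agent.N739.OW.psi_var hz hρ hε, Pool.Agent.N739.OW.psi_quasi hs,
    Pool.Agent.N739.OW.psi_rh hs⟩
  filter_upwards [Pool.Agent.N739.OW.psi_one h1 h2 hA0 hA hz hρ hε hs] with X hX H hH hHX
  exact hX H (by linarith) hHX

end Pool.Agent.Results.MP_2a816b_nt.OneSidedEveryWindow
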