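import Pool.Agent.N804.PV.AllW
import Pool.Agent.N804.PV.Cen

/-!
# One-sided bounds for the variance of primes in intervals of fixed length

The Riemann Hypothesis together with the pair correlation conjecture is equivalent to an upper
bound of the conjectured size for the mean square of `ψ(x; H) - H`, in logarithmic mean over
`T^(b-δ) ≤ X ≤ T^b`, `b > 1`, where `H = X/T` and `δ < 1` is one fixed number.
-/

open Filter Topology

namespace Pool.Agent.Results.MP_2a816b_nt.PrimeVarianceUpper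

/-- multiplicity of `s` as a zero of the Riemann zeta function (order of vanishing at `s`) -/
noncomputable def zmult (s : ℂ) : ℕ := analyticOrderNatAt riemannZeta s

/-- the nontrivial zeros of `ζ` -/
def ZZ : Set ℂ := {s : ℂ | riemannZeta s = 0 ∧ 0 < s.re ∧ s.re < 1}

/-- the number of ordered pairs `(γ, γ')` of ordinates of nontrivial zeros, counted
with multiplicity, with `0 < γ ≤ T` and `0 < γ - γ' ≤ 2πa / log T` -/
noncomputable def N (T a : ℝ) : ℕ :=
  ∑ᶠ p ∈ {p : ℂ × ℂ | p.1 ∈ ZZ ∧ p.2 ∈ ZZ ∧ 0 < p.1.im ∧ p.1.im ≤ T ∧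
    0 < p.1.im - p.2.im ∧ p.1.im - p.2.im ≤ 2 * Real.pi * a / Real.log T}, zmult p.1 * zmult p.2

/-- the sum of `Λ(n)` over the integers `n ≥ 1` with `x - H/2 ≤ n ≤ x + H/2` (here `n = 0` does
not matter because `Λ(0) = 0`) -/
noncomputable def psi (x H : ℝ) : ℝ :=
  ∑ n ∈ Finset.Icc ⌈x - H / 2⌉₊ ⌊x + H / 2⌋₊, ArithmeticFunction.vonMangoldt n

/-- the ratio of the mean square of `ψ(x; H) - H` over `H/2 ≤ x ≤ X` (intervals in the positive
axis) and `H log (X/H)` -/
noncomputable def R (X H : ℝ) : ℝ :=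
  ((1 / X) * ∫ x in (H / 2)..X, (psi x H - H) ^ 2) / (H * Real.log (X / H))

/-- Let `0 < δ < 1`. The following are equivalent. (1) The Riemann Hypothesis and the pair
correlation conjecture. (2), (3) For almost every, or for every, `b > 1`, with
`b' = max(1, b - δ)`: the integral of `R(X, X/T)` over `b' ≤ log X / log T ≤ b` has upper limit
at most `b - b'` as `T → ∞`. (4) For all `1 ≤ u < v` the integral of `R(X, X/T)` over
`u ≤ log X / log T ≤ v` tends to `v - u`. -/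
theorem result {δ : ℝ} (h0 : 0 < δ) (h1 : δ < 1) : List.TFAE [
    RiemannHypothesis ∧ ∀ a : ℝ, 0 < a →
      Tendsto (fun T : ℝ => (N T a : ℝ) / (T * Real.log T / (2 * Real.pi))) atTop
        (𝓝 (∫ u in (0 : ℝ)..a, (1 - (Real.sin (Real.pi * u) / (Real.pi * u)) ^ 2))),
    ∀ᵐ b : ℝ, 1 < b → ∀ ε : ℝ, 0 < ε → ∀ᶠ T : ℝ in atTop,
      ∫ α in (max 1 (b - δ))..b, R (T ^ α) (T ^ α / T) ≤ b - max 1 (b - δ) + ε,
    ∀ b : ℝ, 1 < b → ∀ ε : ℝ, 0 < ε → ∀ᶠ T : ℝ in atTop,
      ∫ α in (max 1 (b - δ))..b, R (T ^ α) (T ^ α / T) ≤ b - max 1 (b - δ) + ε,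
    ∀ u v : ℝ, 1 ≤ u → u < v →
      Tendsto (fun T : ℝ => ∫ α in u..v, R (T ^ α) (T ^ α / T)) atTop (𝓝 (v - u))] := by
  have hpi := Real.pi_pos
  have hP : ∀ a, (∫ u in (0 : ℝ)..a, (1 - (Real.sin (Real.pi * u) / (Real.pi * u)) ^ 2)) =
      N804.PP a := by
    intro a
    have h := N804.val_eq a
    rw [div_eq_mul_inv, one_mul, div_eq_mul_inv, mul_comm] at h
    exact mul_right_cancel₀ (by positivity) h
  have hN : ∀ a : ℝ, ∀ᶠ T : ℝ in atTop,
      (N T a : ℝ) / (T * Real.log T / (2 * Real.pi)) = N804.CF T a := by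
    intro a
    obtain ⟨T₀, hT₀, h⟩ := N804.nstar_eq a
    filter_upwards [eventually_ge_atTop T₀] with T hT
    have hT10 : 10 ≤ T := hT₀.trans hT
    have hL : 0 < Real.log T := Real.log_pos (by linarith)
    have e : (N T a : ℝ) = N804.CF T a * N804.XX T := h T hT
    rw [e]
    unfold N804.XX
    have : T ≠ 0 := by linarith
    field_simp
  have hpc : (∀ a : ℝ, 0 < a →
      Tendsto (fun T : ℝ => (N T a : ℝ) / (T * Real.log T / (2 * Real.pi))) atTop
        (𝓝 (∫ u in (0 : ℝ)..a, (1 - (Real.sin (Real.pi * u) / (Real.pi * u)) ^ 2)))) ↔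
      ∀ a : ℝ, 0 < a → Tendsto (fun T => N804.CF T a) atTop (𝓝 (N804.PP a)) := by
    refine forall_congr' fun a => forall_congr' fun _ => ?_
    rw [hP]
    exact tendsto_congr' (hN a)
  have hR : ∀ T : ℝ, 1 < T → ∀ α : ℝ, R (T ^ α) (T ^ α / T) = N804.PV.PSI (1 / 2) T α := by
    intro T hT α
    have hT0 : 0 < T := by linarith
    have hX : 0 < T ^ α := Real.rpow_pos_of_pos hT0 α
    have hL := Real.log_pos hT
    have e := N804.PV.cen_eq hX hT.le
    unfold R N804.PV.PSI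
    change 1 / T ^ α * (∫ x in (T ^ α / T / 2)..(T ^ α), (N804.PV.psiC x (T ^ α / T) -
      T ^ α / T) ^ 2) / _ = _
    rw [e]
    have e2 : T ^ α / (T ^ α / T) = T := by field_simp
    rw [e2]
    field_simp
  have hW : ∀ T : ℝ, 2 ≤ T → ∀ u v : ℝ, 1 ≤ u → u ≤ v →
      ∫ α in u..v, R (T ^ α) (T ^ α / T) = N804.PV.WV (1 / 2) T u v := by
    intro T hT u v hu huv
    rw [(N804.PV.w1 (1 / 2) (by norm_num) (by norm_num) T hT).2.1 u v hu huv]
    exact intervalIntegral.integral_congr fun α _ => hR T (by linarith) α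
  obtain ⟨m1, m2⟩ := N804.PV.pw_main (show (0 : ℝ) ≤ 1 / 2 by norm_num) (by norm_num) h0 h1
  rw [← hpc] at m1 m2
  have hev := eventually_ge_atTop (2 : ℝ)
  have key : ∀ F : ℝ → ℝ → ℝ → ℝ, (∀ u v : ℝ, 1 ≤ u → u < v →
      Tendsto (fun T : ℝ => F T u v) atTop (𝓝 (v - u))) → ∀ b : ℝ, 1 < b → ∀ ε : ℝ, 0 < ε →
      ∀ᶠ T : ℝ in atTop, F T (max 1 (b - δ)) b ≤ b - max 1 (b - δ) + ε := by
    intro F h b hb ε hε
    have h2 := h (max 1 (b - δ)) b (le_max_left _ _) (max_lt hb (by linarith))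
    filter_upwards [(tendsto_order.1 h2).2 (b - max 1 (b - δ) + ε) (by linarith)] with T hT
    exact hT.le
  tfae_have 3 → 2 := fun h => MeasureTheory.ae_of_all _ h
  tfae_have 2 → 1 := by
    intro h
    refine m1 ?_
    filter_upwards [h] with b hb hb1 ε hε
    filter_upwards [hb hb1 ε hε, hev] with T hT hT2
    rwa [hW T hT2 _ _ (le_max_left _ _) (max_le hb1.le (by linarith))] at hT
  tfae_have 1 → 4 := by
    intro h u v hu huv
    refine (m2 h u v hu huv).congr' ?_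
    filter_upwards [hev] with T hT2
    exact (hW T hT2 u v hu huv.le).symm
  tfae_have 4 → 3 := fun h => key (fun T u v => ∫ α in u..v, R (T ^ α) (T ^ α / T)) h
  tfae_finish

end Pool.Agent.Results.MP_2a816b_nt.PrimeVarianceUpper
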