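import Pool.Agent.N699.RG.Fin2

/-!
# The variance and the normal law of the primes at `H` positions from explicit sets of polylogarithmic size

For `H / log N → ∞`, `H ≤ log ^ A N`, and for almost all vectors `(v_1, ..., v_H)` of independent shifts, each with a law
whose Fourier transform is at most `1 / log ^ W N` off the arc at zero (in particular for almost all vectors of shifts
from explicit sets of `log ^ C N` integers), the mean square of `∑ i, (Λ (x + v_i) - 1)` over `x = 1, ..., N` is
asymptotically `H log N`, and `∑ i, (Λ (x + v_i) - 1)`, divided by `sqrt (H log N)`, has asymptotically the standard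
normal law.
-/

set_option autoImplicit false

namespace Pool.Agent.Results.MP_2a816b_nt.RandomPositions

open Finset

/-- The deviation `∑ i, (Λ (x + v_i) - 1)` of the weighted count of prime powers at the `H` positions `x + v_i`. -/
noncomputable def deviation {H : ℕ} (v : Fin H → ℕ) (x : ℕ) : ℝ := ∑ i, (ArithmeticFunction.vonMangoldt (x + v i) - 1)

/-- The mean square of the deviation over `x = 1, ..., N`. -/
noncomputable def variance {H : ℕ} (N : ℕ) (v : Fin H → ℕ) : ℝ := (∑ x ∈ Icc 1 N, deviation v x ^ 2) / N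

/-- The proportion of the `1 ≤ x ≤ N` whose deviation divided by `sqrt (H log N)` is at most `t`. -/
noncomputable def distribution {H : ℕ} (N : ℕ) (v : Fin H → ℕ) (t : ℝ) : ℝ :=
  (((Icc 1 N).filter fun x => deviation v x / Real.sqrt (H * Real.log N) ≤ t).card : ℝ) / N

/-- The distribution function of the standard normal law. -/
noncomputable def normal (t : ℝ) : ℝ := (Real.sqrt (2 * Real.pi))⁻¹ * ∫ u in Set.Iic t, Real.exp (-(u ^ 2) / 2)

/-- The variance is `H log N` and the distribution function at `t` is the one of the normal law, both up to `ε`. -/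
def Good (H N : ℕ) (t ε : ℝ) (v : Fin H → ℕ) : Prop :=
  |variance N v / (H * Real.log N) - 1| ≤ ε ∧ |distribution N v t - normal t| ≤ ε

/-- `p` is a probability measure on the integers `0, ..., B N`, and its Fourier transform `∑ p v e(v α)` is at most
`1 / log ^ W N` in absolute value at all the real frequencies `α` at a distance of more than `log ^ E N / N` from the
integers. -/
structure SmallOff (B E W N : ℕ) (p : ℕ → ℝ) : Prop where
  nonneg : ∀ v ∈ range (B * N + 1), 0 ≤ p v
  sum : ∑ v ∈ range (B * N + 1), p v = 1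
  small : ∀ α : ℝ, (∀ k : ℤ, Real.log N ^ E / N < |α - k|) →
    ‖∑ v ∈ range (B * N + 1), (p v : ℂ) * Complex.exp (2 * Real.pi * Complex.I * ((v * α : ℝ) : ℂ))‖ ≤ 1 / Real.log N ^ W

/-- The triples `(b, u, i)`, where `b ≤ Q` is a prime, `0 ≤ u < b` and `0 ≤ i < Q`. -/
def triples (Q : ℕ) : Finset (ℕ × ℕ × ℕ) := (range (Q + 1) ×ˢ range Q ×ˢ range Q).filter fun t => t.1.Prime ∧ t.2.1 < t.1

/-- The integer `u ⌊M / b⌋ + i` of the triple `(b, u, i)`: it is near to the rational multiple `(u / b) M` of `M`. -/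
def point (M : ℕ) (t : ℕ × ℕ × ℕ) : ℕ := t.2.1 * (M / t.1) + t.2.2

lemma bridge {H N : ℕ} (hH : 1 ≤ H) (hN : 1 ≤ Real.log N) (t ε : ℝ) (v : Fin H → ℕ) :
    Good H N t ε v ↔ (|Pool.Agent.N699.RG.V N (fun m => ArithmeticFunction.vonMangoldt m - 1) v / (H * Real.log N) - 1| ≤ ε ∧
        |(((Icc 1 N).filter fun x => (∑ i, (ArithmeticFunction.vonMangoldt (x + v i) - 1)) ≤ t * Real.sqrt (H * Real.log N)).card : ℝ) / N -
          Pool.Agent.N786.E.Phi t| ≤ ε) := by
  unfold Good distribution
  have hH0 : (0 : ℝ) < H := by exact_mod_cast hH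
  have h2 : 0 < Real.sqrt (H * Real.log N) := Real.sqrt_pos.2 (by positivity)
  have h3 : ((Icc 1 N).filter fun x => deviation v x / Real.sqrt (H * Real.log N) ≤ t) =
      (Icc 1 N).filter fun x => (∑ i, (ArithmeticFunction.vonMangoldt (x + v i) - 1)) ≤ t * Real.sqrt (H * Real.log N) := by
    apply filter_congr
    intro x _
    rw [div_le_iff₀ h2]
    rfl
  rw [h3]
  rfl

open Classical in
/-- Let `A`, `B ≥ 1`, a real number `t` and `ε > 0` be fixed.

(1) There is a `W` such that for every `E` there are `K` and `N₀` such that for all `N ≥ N₀` and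
`K log N ≤ H ≤ log ^ A N`: if `v_1, ..., v_H` are independent random integers whose laws are any probability measures on
`0, ..., B N` with a Fourier transform of at most `1 / log ^ W N` at a distance of more than `log ^ E N / N` from the
integers, then with a probability of at least `1 - ε` the mean square over `x = 1, ..., N` of the deviation
`∑ i, (Λ (x + v_i) - 1)` is `(1 + δ) H log N` with `|δ| ≤ ε`, and the proportion of the `x ≤ N` whose deviation is at most
`t sqrt (H log N)` is the value at `t` of the distribution function of the standard normal law, with an error of at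
most `ε`.

(2) There are `C`, `K` and `N₀` such that for all `N ≥ N₀`, `K log N ≤ H ≤ log ^ A N`, all `Q i` with
`log ^ C N ≤ Q i ≤ N`, all `M i` with `N / B ≤ M i ≤ B N` and all `c i ≤ B N` this holds for the vectors of shifts
`v i = c i + u ⌊M i / b⌋ + k` (`b ≤ Q i` prime, `0 ≤ u < b`, `0 ≤ k < Q i`), with the exception of a proportion of at
most `ε` of the vectors of triples `(b, u, k)`. (For `Q i = log ^ C N` there are at most `log ^ (3 C) N` triples.) -/
theorem result (A B : ℕ) (hB : 1 ≤ B) (t ε : ℝ) (hε : 0 < ε) :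
    (∃ W : ℕ, ∀ E : ℕ, ∃ K N₀ : ℕ, ∀ N H : ℕ, N₀ ≤ N → K * Real.log N ≤ H → (H : ℝ) ≤ Real.log N ^ A →
      ∀ p : Fin H → ℕ → ℝ, (∀ i, SmallOff B E W N (p i)) →
        ∑ v ∈ Fintype.piFinset (fun _ : Fin H => range (B * N + 1)), (if Good H N t ε v then 0 else ∏ i, p i (v i)) ≤ ε) ∧
    (∃ C K N₀ : ℕ, ∀ N H : ℕ, N₀ ≤ N → K * Real.log N ≤ H → (H : ℝ) ≤ Real.log N ^ A →
      ∀ Q M c : Fin H → ℕ, (∀ i, Real.log N ^ C ≤ Q i ∧ Q i ≤ N ∧ N ≤ B * M i ∧ M i ≤ B * N ∧ c i ≤ B * N) →
        (((Fintype.piFinset fun i => triples (Q i)).filter fun τ =>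
          ¬ Good H N t ε (fun i => c i + point (M i) (τ i))).card : ℝ) ≤
        ε * ((Fintype.piFinset fun i => triples (Q i)).card : ℝ)) := by
  obtain ⟨n5, h5⟩ := Pool.Agent.H373R2.T7.ev_L' 1
  have hone : ∀ K N H : ℕ, n5 ≤ N → ((K + 1 : ℕ) : ℝ) * Real.log N ≤ H → 1 ≤ H ∧ K * Real.log N ≤ H := by
    intro K N H hN hH
    have e1 := h5 N hN
    push_cast at hH
    have e2 : 0 ≤ (K : ℝ) * Real.log N := by positivity
    have e3 : (1 : ℝ) ≤ H := by linarith
    exact ⟨by exact_mod_cast e3, by linarith⟩
  constructor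
  · obtain ⟨W, hW⟩ := Pool.Agent.N699.RG.gauss_prime A B t ε hε
    refine ⟨W, fun E => ?_⟩
    obtain ⟨K, N1, h1⟩ := hW E
    refine ⟨K + 1, N1 + n5, fun N H hN hH hHA p hp => ?_⟩
    obtain ⟨hH1, hHK⟩ := hone K N H (by omega) hH
    have h2 := h1 N (by omega) H hHK hHA (fun _ => range (B * N + 1)) p (fun i => ⟨(hp i).nonneg, (hp i).sum, fun v hv => by
      rw [mem_range] at hv
      omega, (hp i).small⟩)
    refine le_trans (le_of_eq ?_) h2
    apply sum_congr rfl
    intro v _
    have hb := bridge hH1 (h5 N (by omega)) t ε v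
    by_cases hv : Good H N t ε v
    · rw [if_pos hv]
      exact (if_pos (hb.1 hv)).symm
    · rw [if_neg hv]
      exact (if_neg fun hcon => hv (hb.2 hcon)).symm
  · obtain ⟨W, hW⟩ := Pool.Agent.N699.RG.gauss_prime A (B + 1 + B) t ε hε
    obtain ⟨K, N1, h1⟩ := hW (W + 1)
    obtain ⟨N2, h2⟩ := Pool.Agent.N699.GC.prime_lawz B W hB
    refine ⟨2 * W + 5, K + 1, N1 + N2 + n5 + 3, fun N H hN hH hHA Q M c hQM => ?_⟩
    obtain ⟨hH1, hHK⟩ := hone K N H (by omega) hH
    have h3 := h1 N (by omega) H hHK hHA
      (fun i => (Pool.Agent.N699.RP.pts (Q i)).image fun s => c i + Pool.Agent.N699.RP.pt (M i) s)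
      (fun i => Pool.Agent.N699.RP.push (Pool.Agent.N699.RP.pts (Q i)) (fun _ => 1 / ((Pool.Agent.N699.RP.pts (Q i)).card : ℝ))
        fun s => c i + Pool.Agent.N699.RP.pt (M i) s)
      (fun i => Pool.Agent.N699.GC.lz_trans (B + 1) B (W + 1) W N (Pool.Agent.N699.RP.pts (Q i))
        (fun _ => 1 / ((Pool.Agent.N699.RP.pts (Q i)).card : ℝ)) (fun _ _ => by positivity) (Pool.Agent.N699.RP.pt (M i)) (c i)
        (hQM i).2.2.2.2 (h2 N (by omega) (M i) (hQM i).2.2.1 (hQM i).2.2.2.1 (Q i) (hQM i).1 (hQM i).2.1))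
    have e := Pool.Agent.N699.RP.push_tuple (fun i => Pool.Agent.N699.RP.pts (Q i))
        (fun i _ => 1 / ((Pool.Agent.N699.RP.pts (Q i)).card : ℝ)) (fun i s => c i + Pool.Agent.N699.RP.pt (M i) s)
        (fun v => ¬ Good H N t ε v)
    have h' : ∑ τ ∈ Fintype.piFinset (fun i => triples (Q i)),
        (if ¬ Good H N t ε (fun i => c i + point (M i) (τ i)) then
        ∏ i, 1 / ((triples (Q i)).card : ℝ) else 0) ≤ ε := by
      refine le_trans (le_of_eq ?_) ((le_of_eq e.symm).trans (le_trans (le_of_eq ?_) h3))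
      · apply sum_congr rfl
        intro τ _
        by_cases hv : Good H N t ε (fun i => c i + point (M i) (τ i))
        · have hv' : ¬ ¬ Good H N t ε (fun i => c i + Pool.Agent.N699.RP.pt (M i) (τ i)) := not_not.2 hv
          rw [if_neg (not_not.2 hv), if_neg hv']
        · have hv' : ¬ Good H N t ε (fun i => c i + Pool.Agent.N699.RP.pt (M i) (τ i)) := hv
          rw [if_pos hv, if_pos hv']
          rfl
      · apply sum_congr rfl
        intro v _
        have hb := bridge hH1 (h5 N (by omega)) t ε v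
        by_cases hv : Good H N t ε v
        · rw [if_neg (not_not.2 hv)]
          exact (if_pos (hb.1 hv)).symm
        · rw [if_pos hv]
          exact (if_neg fun hcon => hv (hb.2 hcon)).symm
    rw [← sum_filter, sum_const, nsmul_eq_mul, prod_div_distrib, prod_const_one, mul_one_div] at h'
    have hcard : ((Fintype.piFinset fun i => triples (Q i)).card : ℝ) = ∏ i, ((triples (Q i)).card : ℝ) := by
      rw [Fintype.card_piFinset]
      push_cast
      rfl
    rw [← hcard] at h'
    rcases Nat.eq_zero_or_pos (Fintype.piFinset fun i => triples (Q i)).card with h0 | h0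
    · have h4 : ((Fintype.piFinset fun i => triples (Q i)).filter fun τ =>
          ¬ Good H N t ε (fun i => c i + point (M i) (τ i))).card = 0 := by
        have := card_filter_le (Fintype.piFinset fun i => triples (Q i)) (fun τ =>
          ¬ Good H N t ε (fun i => c i + point (M i) (τ i)))
        omega
      rw [h4, h0, Nat.cast_zero, mul_zero]
    · have h0r : (0 : ℝ) < ((Fintype.piFinset fun i => triples (Q i)).card : ℝ) := by exact_mod_cast h0
      rw [div_le_iff₀ h0r] at h'
      exact h'

end Pool.Agent.Results.MP_2a816b_nt.RandomPositions
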