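import Mathlib
import Pool.Agent.N740.HK.Vr6
import Pool.Agent.N740.HK.Vr7
import Pool.Agent.N740.HK.Suc
import Pool.Agent.N740.HK.Trials
import Pool.Agent.N740.HK.Sch

/-!
# The variance of the primes in short intervals in random models of the primes

The integers are decided one after the other.  An integer `n` with a prime factor `p ≤ z(n)` is never
chosen, and the conditional probability of choosing `n + 1`, given the decisions up to `n`, is
asymptotic to `1 / (log n ∏ (1 - 1/p))`, `p ≤ z(n + 1)`, along the other integers.  With `z = 0`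
these are the models of Cramér and of Hawkins, with `z(n) = log n` Granville's refinement.  Nothing
else is assumed: no independence and no rate of convergence.
-/

set_option autoImplicit false

open MeasureTheory Filter Set ProbabilityTheory
open scoped Topology

namespace Pool.Agent.Results.MP_2a816b_nt.VarianceInModels

variable {Ω : Type}

/-- `n` has no prime factor at most `z` -/
def Sifted (z n : ℕ) : Prop := ∀ p : ℕ, p.Prime → p ≤ z → ¬ p ∣ n

/-- `∏ (1 - 1/p)` over the primes `p ≤ z` -/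
noncomputable def mertens (z : ℕ) : ℝ := ∏ p ∈ (Finset.Icc 1 z).filter Nat.Prime, (1 - 1 / (p : ℝ))

/-- `A n` is the event that `n` is chosen.  The events are adapted to the filtration `ℱ`; an integer
`n` with a prime factor at most `z n` is never chosen; and the conditional probability of `A (n + 1)`
given `ℱ n`, times `log n` and times `∏ (1 - 1/p)`, `p ≤ z (n + 1)`, tends to `1` almost surely when
`n` tends to infinity in such a way that `n + 1` has no prime factor at most `z (n + 1)`. -/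
def SievedModel [m : MeasurableSpace Ω] (μ : Measure Ω) (ℱ : Filtration ℕ m) (z : ℕ → ℕ) (A : ℕ → Set Ω) : Prop :=
  (∀ n, MeasurableSet[ℱ n] (A n)) ∧ (∀ n, ¬ Sifted (z n) n → A n = ∅) ∧
  ∀ᵐ ω ∂μ, Tendsto (fun n : ℕ => (μ[(A (n + 1)).indicator (fun _ => (1 : ℝ)) | ℱ n]) ω * (Real.log n * mertens (z (n + 1))))
    (atTop ⊓ 𝓟 {n : ℕ | Sifted (z (n + 1)) (n + 1)}) (𝓝 1)

/-- The independent models: the integers with a prime factor at most `z n` are not chosen, the other
large integers `n` are chosen independently with probability `1 / (log n ∏ (1 - 1/p))`, `p ≤ z n`.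
(Granville: `z n` of the order of `log n`.) -/
def IndependentModel [MeasurableSpace Ω] (μ : Measure Ω) (z : ℕ → ℕ) (A : ℕ → Set Ω) : Prop :=
  (∀ n, MeasurableSet (A n)) ∧ iIndepSet A μ ∧ (∀ n, ¬ Sifted (z n) n → A n = ∅) ∧
  ∀ᶠ n : ℕ in atTop, Sifted (z n) n → μ (A n) = ENNReal.ofReal (1 / (Real.log n * mertens (z n)))

/-- The model of Cramér: independent events, `n` is chosen with probability `1 / log n` for `n ≥ 3`. -/
def CramerModel [MeasurableSpace Ω] (μ : Measure Ω) (A : ℕ → Set Ω) : Prop :=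
  (∀ n, MeasurableSet (A n)) ∧ iIndepSet A μ ∧ ∀ n : ℕ, 3 ≤ n → μ (A n) = ENNReal.ofReal (1 / Real.log n)

open Classical in
/-- The random sieve of Hawkins: `2` is chosen, and given the decisions up to `n ≥ 2` the number
`n + 1` is chosen with probability `∏ (1 - 1 / h)`, the product over the chosen `2 ≤ h ≤ n`. -/
def HawkinsSieve [m : MeasurableSpace Ω] (μ : Measure Ω) (ℱ : Filtration ℕ m) (A : ℕ → Set Ω) : Prop :=
  (∀ n, MeasurableSet[ℱ n] (A n)) ∧ A 2 = univ ∧
  ∀ n, 2 ≤ n → μ[(A (n + 1)).indicator (fun _ => (1 : ℝ)) | ℱ n] =ᵐ[μ]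
    fun ω => ∏ h ∈ Finset.Icc 2 n, if ω ∈ A h then 1 - 1 / (h : ℝ) else 1

/-- the sum of `log n` over the chosen `n` with `x < n ≤ x + H` -/
noncomputable def psi (A : ℕ → Set Ω) (x H : ℕ) (ω : Ω) : ℝ :=
  ∑ n ∈ Finset.Ioc x (x + H), Real.log n * (A n).indicator (fun _ => (1 : ℝ)) ω

/-- the compensator of `psi`: the sum of `log n` times the conditional probability of `A n` given `ℱ (n - 1)` -/
noncomputable def psiComp [m : MeasurableSpace Ω] (μ : Measure Ω) (ℱ : Filtration ℕ m) (A : ℕ → Set Ω) (x H : ℕ) (ω : Ω) : ℝ :=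
  ∑ n ∈ Finset.Ioc x (x + H), Real.log n * (μ[(A n).indicator (fun _ => (1 : ℝ)) | ℱ (n - 1)]) ω

/-- the mean square over the integers `2 ≤ x ≤ X` -/
noncomputable def meanSq (X : ℕ) (f : ℕ → ℝ) : ℝ := (∑ x ∈ Finset.Icc 2 X, f x ^ 2) / X

open Pool.Agent.N740.HK Pool.Agent.R528.RM

lemma prod_inv (A : ℕ → Set Ω) (n : ℕ) (ω : Ω) [DecidablePred fun h => ω ∈ A h] :
    (∏ h ∈ Finset.Icc 2 n, if ω ∈ A h then 1 - 1 / (h : ℝ) else 1) = (Y A n ω)⁻¹ := by
  unfold Y
  rw [← Finset.prod_inv_distrib]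
  refine Finset.prod_congr rfl fun h hh => ?_
  have h2 : (2 : ℝ) ≤ h := by exact_mod_cast (Finset.mem_Icc.1 hh).1
  by_cases hA : ω ∈ A h
  · rw [if_pos hA, if_pos hA, inv_div]
    field_simp
  · rw [if_neg hA, if_neg hA, inv_one]

lemma log_ratio : Tendsto (fun n : ℕ => (Real.log ((n + 1 : ℕ) : ℝ))⁻¹ * Real.log n) atTop (𝓝 1) := by
  have h1 : Tendsto (fun n : ℕ => Real.log ((n : ℝ) + 1) - Real.log n) atTop (𝓝 0) := by
    have h1 : Tendsto (fun n : ℕ => 1 + (1 : ℝ) / n) atTop (𝓝 (1 + 0)) :=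
      tendsto_const_nhds.add tendsto_one_div_atTop_nhds_zero_nat
    rw [add_zero] at h1
    have h2 := (Real.continuousAt_log (one_ne_zero)).tendsto.comp h1
    rw [Real.log_one] at h2
    refine h2.congr' ?_
    filter_upwards [eventually_gt_atTop 0] with n hn
    have hn' : (0 : ℝ) < n := by exact_mod_cast hn
    show Real.log (1 + 1 / (n : ℝ)) = _
    rw [← Real.log_div (by positivity) hn'.ne']
    congr 1
    field_simp
  have h2 : Tendsto (fun n : ℕ => Real.log ((n : ℝ) + 1)) atTop atTop :=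
    Real.tendsto_log_atTop.comp (tendsto_atTop_add_const_right _ _ tendsto_natCast_atTop_atTop)
  have h3 := h1.div_atTop h2
  have h4 : Tendsto (fun n : ℕ => 1 - (Real.log ((n : ℝ) + 1) - Real.log n) / Real.log ((n : ℝ) + 1)) atTop (𝓝 (1 - 0)) :=
    tendsto_const_nhds.sub h3
  rw [sub_zero] at h4
  refine h4.congr' ?_
  filter_upwards [h2.eventually_gt_atTop 0] with n hn
  push_cast
  field_simp
  ring

lemma diff_eq [m : MeasurableSpace Ω] {μ : Measure Ω} {ℱ : Filtration ℕ m} {A : ℕ → Set Ω} {ω : Ω}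
    (h : ∀ n, DD' μ ℱ A n ω = dens μ ℱ A n ω) (x H : ℕ) :
    ∑ t ∈ Finset.Ico x (x + H), Vr.lg t * Yc μ ℱ A t ω = psi A x H ω - psiComp μ ℱ A x H ω := by
  unfold psi psiComp
  rw [← Finset.sum_sub_distrib]
  refine Finset.sum_nbij' (fun t => t + 1) (fun n => n - 1) ?_ ?_ ?_ ?_ ?_
  · intro t ht
    have := Finset.mem_Ico.1 ht
    exact Finset.mem_Ioc.2 ⟨by omega, by omega⟩
  · intro n hn
    have := Finset.mem_Ioc.1 hn
    exact Finset.mem_Ico.2 ⟨by omega, by omega⟩
  · intro t _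
    simp
  · intro n hn
    have := Finset.mem_Ioc.1 hn
    omega
  · intro t _
    simp only [Nat.add_sub_cancel]
    unfold Vr.lg Yc
    rw [h t]
    unfold J1 dens
    ring

/-- the mean square around the compensator -/
theorem around [m : MeasurableSpace Ω] {μ : Measure Ω} [IsProbabilityMeasure μ] {ℱ : Filtration ℕ m} {A : ℕ → Set Ω}
    {z : ℕ → ℕ} (hz : Monotone z) {k : ℕ} (hzk : ∀ᶠ n : ℕ in atTop, (z n : ℝ) ≤ Real.log n ^ k)
    (hs : SievedModel μ ℱ z A) :
    ∀ᵐ ω ∂μ, ∀ ε : ℝ, 0 < ε → ∀ᶠ X : ℕ in atTop, ∀ H : ℕ, 1 ≤ H → (H : ℝ) * Real.log X ^ 5 ≤ X →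
      |meanSq X (fun x => psi A x H ω - psiComp μ ℱ A x H ω) / (H * Real.log X) - 1| ≤ ε := by
  have hd := rg_hd (μ := μ) (ℱ := ℱ) hs.2.1 hs.2.2
  have hR : ∀ ε : ℝ, 0 < ε → ∀ᶠ y : ℕ in atTop, |∑ t ∈ Finset.range y, Vr.lg t ^ 2 * rg z t - y * Real.log y| ≤ ε * (y * Real.log y) := by
    intro ε hε
    filter_upwards [Vr.RR_asym hz hzk (show 0 < min ε 1 from lt_min hε one_pos) (min_le_right _ _)] with y hy
    refine hy.trans (mul_le_mul_of_nonneg_right (min_le_left _ _) ?_)
    exact mul_nonneg (Nat.cast_nonneg _) (Real.log_natCast_nonneg _)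
  filter_upwards [Vr.variance_r (μ := μ) hs.1 (rg_nonneg z) (rg_bdd (μ := μ) hs.1 hd) (Vr.rg_lim hzk) hd hR,
    DD'_ae (μ := μ) hs.1] with ω h1 h2
  intro ε hε
  filter_upwards [h1 ε hε, eventually_ge_atTop 3] with X g1 hX H hH1 hH
  have hX' : (3 : ℝ) ≤ X := by exact_mod_cast hX
  have hH' : (1 : ℝ) ≤ H := by exact_mod_cast hH1
  have hL : 0 < Real.log (X : ℝ) := Real.log_pos (by linarith)
  have k := g1 H hH1 hH
  simp only [diff_eq h2] at k
  have hP : 0 < (X : ℝ) * H * Real.log X := by positivity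
  have e : meanSq X (fun x => psi A x H ω - psiComp μ ℱ A x H ω) / (H * Real.log X) - 1 =
      (∑ x ∈ Finset.Icc 2 X, (psi A x H ω - psiComp μ ℱ A x H ω) ^ 2 - X * H * Real.log X) / (X * H * Real.log X) := by
    unfold meanSq
    field_simp
  rw [e, abs_div, abs_of_pos hP, div_le_iff₀ hP]
  exact k

end Pool.Agent.Results.MP_2a816b_nt.VarianceInModels

open Pool.Agent.Results.MP_2a816b_nt.VarianceInModels Pool.Agent.N740.HK Pool.Agent.R528.RM

/-- The independent models are sieved models for some filtration, and the random sieve of Hawkins is a sieved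
model with `z = 0`.  In every sieved model with `z` nondecreasing and `z n ≤ (log n)^k`, almost surely, the mean
square over `2 ≤ x ≤ X` of the centred sum of `log n` over the chosen `n ∈ (x, x + H]` is `~ H log X`, uniformly in
`1 ≤ H ≤ X / (log X)^5`.  In the model of Cramér the same holds for the mean square around `H`; so for
`X^δ ≤ H ≤ X / (log X)^5` it is at least `1 + δ / 2` times `H (log X - log H - c)`, for every real `c`, in particular
for the constant `γ + log 2π` of the page. -/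
theorem Pool.Agent.Results.MP_2a816b_nt.VarianceInModels.result
    {Ω : Type} [m : MeasurableSpace Ω] (μ : Measure Ω) [IsProbabilityMeasure μ] (A : ℕ → Set Ω) :
    (CramerModel μ A →
      ∀ᵐ ω ∂μ,
        (∀ ε : ℝ, 0 < ε → ∀ᶠ X : ℕ in atTop, ∀ H : ℕ, 1 ≤ H → (H : ℝ) * Real.log X ^ 5 ≤ X →
          |meanSq X (fun x => psi A x H ω - H) / (H * Real.log X) - 1| ≤ ε) ∧
        (∀ c δ : ℝ, 0 < δ → δ < 1 → ∀ᶠ X : ℕ in atTop, ∀ H : ℕ, (X : ℝ) ^ δ ≤ H → (H : ℝ) * Real.log X ^ 5 ≤ X →
          (1 + δ / 2) * (H * (Real.log X - Real.log H - c)) ≤ meanSq X (fun x => psi A x H ω - H))) ∧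
    (∀ z : ℕ → ℕ, IndependentModel μ z A → ∃ ℱ : Filtration ℕ m, SievedModel μ ℱ z A) ∧
    ∀ ℱ : Filtration ℕ m,
    (HawkinsSieve μ ℱ A → SievedModel μ ℱ (fun _ => 0) A) ∧
    (∀ (z : ℕ → ℕ) (k : ℕ), Monotone z → (∀ᶠ n : ℕ in atTop, (z n : ℝ) ≤ Real.log n ^ k) → SievedModel μ ℱ z A →
      ∀ᵐ ω ∂μ, ∀ ε : ℝ, 0 < ε → ∀ᶠ X : ℕ in atTop, ∀ H : ℕ, 1 ≤ H → (H : ℝ) * Real.log X ^ 5 ≤ X →
        |meanSq X (fun x => psi A x H ω - psiComp μ ℱ A x H ω) / (H * Real.log X) - 1| ≤ ε) := by
  classical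
  have e0 : mertens 0 = 1 := by
    unfold mertens
    simp
  refine ⟨?_, fun z => ?_, fun ℱ => ⟨?_, fun z k hz hzk hs => around hz hzk hs⟩⟩
  · rintro ⟨hA, hi, hp⟩
    have h1 : ∀ᵐ ω ∂μ, ∀ n, (μ[(A (n + 1)).indicator (fun _ => (1 : ℝ)) | gen hA n]) ω =
        (μ (A (n + 1))).toReal := ae_all_iff.2 fun n => dens_gen hA hi n
    have hs : SievedModel μ (gen hA) (fun _ => 0) A := by
      refine ⟨gen_meas hA, fun n hn => absurd (fun p hp hp0 => absurd hp.pos (not_lt.2 hp0)) hn, ?_⟩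
      filter_upwards [h1] with ω hω
      refine (log_ratio.mono_left inf_le_left).congr' ?_
      rw [EventuallyEq, eventually_inf_principal]
      filter_upwards [eventually_ge_atTop 2] with n hn _
      rw [hω, hp (n + 1) (by omega), e0, mul_one, ENNReal.toReal_ofReal, one_div]
      have : 0 ≤ Real.log ((n + 1 : ℕ) : ℝ) := Real.log_natCast_nonneg _
      positivity
    have hzk : ∀ᶠ n : ℕ in atTop, (((fun _ => 0 : ℕ → ℕ) n : ℕ) : ℝ) ≤ Real.log n ^ 0 :=
      Eventually.of_forall fun n => by simp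
    filter_upwards [around (monotone_const) hzk hs, h1] with ω g1 hω
    have hcomp : ∀ x H : ℕ, 2 ≤ x → psiComp μ (gen hA) A x H ω = H := by
      intro x H hx
      unfold psiComp
      have e : ∀ n ∈ Finset.Ioc x (x + H), Real.log n * (μ[(A n).indicator (fun _ => (1 : ℝ)) | gen hA (n - 1)]) ω = 1 := by
        intro n hn
        have hn := Finset.mem_Ioc.1 hn
        obtain ⟨t, rfl⟩ : ∃ t, n = t + 1 := ⟨n - 1, by omega⟩
        have ht : (3 : ℝ) ≤ ((t + 1 : ℕ) : ℝ) := by
          have : 3 ≤ t + 1 := by omega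
          exact_mod_cast this
        have hL : 0 < Real.log ((t + 1 : ℕ) : ℝ) := Real.log_pos (by linarith)
        rw [Nat.add_sub_cancel, hω t, hp (t + 1) (by omega), ENNReal.toReal_ofReal (by positivity)]
        field_simp
      rw [Finset.sum_congr rfl e, Finset.sum_const, nsmul_eq_mul, mul_one, Nat.card_Ioc, Nat.add_sub_cancel_left]
    have hmean : ∀ X H : ℕ, meanSq X (fun x => psi A x H ω - H) = meanSq X (fun x => psi A x H ω - psiComp μ (gen hA) A x H ω) := by
      intro X H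
      unfold meanSq
      congr 1
      refine Finset.sum_congr rfl fun x hx => ?_
      show (psi A x H ω - (H : ℝ)) ^ 2 = (psi A x H ω - psiComp μ (gen hA) A x H ω) ^ 2
      rw [hcomp x H (Finset.mem_Icc.1 hx).1]
    have part1 : ∀ ε : ℝ, 0 < ε → ∀ᶠ X : ℕ in atTop, ∀ H : ℕ, 1 ≤ H → (H : ℝ) * Real.log X ^ 5 ≤ X →
          |meanSq X (fun x => psi A x H ω - H) / (H * Real.log X) - 1| ≤ ε := by
      intro ε hε
      filter_upwards [g1 ε hε] with X k1 H hH1 hH
      rw [hmean]
      exact k1 H hH1 hH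
    refine ⟨part1, fun c δ hδ hδ1 => ?_⟩
    have hlog : Tendsto (fun X : ℕ => Real.log (X : ℝ)) atTop atTop := Real.tendsto_log_atTop.comp tendsto_natCast_atTop_atTop
    filter_upwards [part1 (δ / 4) (by positivity), hlog.eventually_ge_atTop (max 1 (8 * |c| / δ)), eventually_ge_atTop 3] with X k1 k2 hX H hH1 hH
    have hX' : (3 : ℝ) ≤ X := by exact_mod_cast hX
    have hL1 : 1 ≤ Real.log (X : ℝ) := (le_max_left _ _).trans k2
    have hL2 : 8 * |c| ≤ δ * Real.log X := by
      have := (le_max_right _ _).trans k2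
      rw [div_le_iff₀ hδ] at this
      linarith
    have hXp : (1 : ℝ) ≤ (X : ℝ) ^ δ := Real.one_le_rpow (by linarith) hδ.le
    have hH' : (1 : ℝ) ≤ H := hXp.trans hH1
    have hH2 : 1 ≤ H := by exact_mod_cast hH'
    have hlH : δ * Real.log X ≤ Real.log H := by
      rw [← Real.log_rpow (by linarith)]
      exact Real.log_le_log (by positivity) hH1
    have k3 := (abs_le.1 (k1 H hH2 hH)).1
    set L := Real.log (X : ℝ) with hL
    have hHL : 0 < (H : ℝ) * L := by positivity
    have k4 : (1 - δ / 4) * (H * L) ≤ meanSq X (fun x => psi A x H ω - H) := by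
      rw [← le_div_iff₀ hHL]
      linarith
    refine le_trans ?_ k4
    have hc := neg_abs_le c
    have k5 : L - Real.log H - c ≤ (1 - δ) * L + |c| := by linarith
    have k6 : (1 + δ / 2) * ((1 - δ) * L + |c|) ≤ (1 - δ / 4) * L := by nlinarith [abs_nonneg c]
    calc (1 + δ / 2) * (H * (L - Real.log H - c)) ≤ (1 + δ / 2) * (H * ((1 - δ) * L + |c|)) := by gcongr
      _ = H * ((1 + δ / 2) * ((1 - δ) * L + |c|)) := by ring
      _ ≤ H * ((1 - δ / 4) * L) := mul_le_mul_of_nonneg_left k6 (by linarith)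
      _ = _ := by ring
  · rintro ⟨hA, hi, he, hp⟩
    refine ⟨gen hA, gen_meas hA, he, ?_⟩
    have h1 : ∀ᵐ ω ∂μ, ∀ n, (μ[(A (n + 1)).indicator (fun _ => (1 : ℝ)) | gen hA n]) ω =
        (μ (A (n + 1))).toReal := ae_all_iff.2 fun n => dens_gen hA hi n
    filter_upwards [h1] with ω hω
    refine (log_ratio.mono_left inf_le_left).congr' ?_
    rw [EventuallyEq, eventually_inf_principal]
    filter_upwards [eventually_ge_atTop 2, (tendsto_add_atTop_nat 1).eventually hp] with n hn hpn hf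
    have hG : 0 < mertens (z (n + 1)) := GG_pos _
    have hn' : (2 : ℝ) ≤ n := by exact_mod_cast hn
    have hL : 0 < Real.log ((n + 1 : ℕ) : ℝ) := Real.log_pos (by push_cast; linarith)
    rw [hω, hpn hf, ENNReal.toReal_ofReal (by positivity)]
    field_simp
  · rintro ⟨h1, h2, h3⟩
    have hs : Pool.Agent.N740.HK.HS μ ℱ A := ⟨h1, h2, fun n hn => by
      filter_upwards [h3 n hn] with ω hω
      rw [← prod_inv]
      exact hω⟩
    refine ⟨h1, fun n hn => absurd (fun p hp hp0 => absurd hp.pos (not_lt.2 hp0)) hn, ?_⟩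
    filter_upwards [Pool.Agent.N740.HK.hawk_dens hs] with ω hω
    simp only [e0, mul_one]
    exact hω.mono_left inf_le_left
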